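import Mathlib
import Pool.Agent.N176.SH.Stm

set_option autoImplicit false

/-!
# Shifted digits: tasks MH and E4 (after helper615 and helper545, project OW)
-/

namespace Pool.Agent.N833.SH

open Finset
open Pool.Agent.H305R2 (roughPart)
open Pool.Agent.N176.OW (cell)
open Pool.Agent.N176.SH

lemma deg_trans {c : ℕ → ℤ} {b t p q r n : ℕ} (hpq : p ≤ q) (hqr : q ≤ r) (h1 : Deg c b t p q n)
    (h2 : Deg c b t q r n) : Deg c b t p r n := by
  unfold Deg at h1 h2 ⊢
  rw [h2, h1, ← mul_assoc, ← pow_add]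
  congr 2
  omega

/-- TASK MH. -/
theorem mh : S_MH := by
  intro c b t n T hb hT
  have hsub : hits c T b t n ⊆ (mhits c T b t n).biUnion
      (fun p => insert p ((Ioc p t).filter (fun q => Deg c b t p q n))) := by
    intro q hq
    have hqT : q ≤ t := hT q (mem_filter.1 hq).1
    obtain ⟨S, hS⟩ : ∃ S : Finset ℕ, S = (hits c T b t n).filter
        (fun p => p ≤ q ∧ (p = q ∨ Deg c b t p q n)) := ⟨_, rfl⟩
    have hqS : q ∈ S := by
      rw [hS, mem_filter]
      exact ⟨hq, le_refl q, Or.inl rfl⟩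
    have hne : S.Nonempty := ⟨q, hqS⟩
    obtain ⟨p, hp⟩ : ∃ p, p = S.min' hne := ⟨_, rfl⟩
    have hpS : p ∈ S := by
      rw [hp]
      exact S.min'_mem hne
    have hmin : ∀ p' ∈ S, p ≤ p' := by
      intro p' hp'
      rw [hp]
      exact S.min'_le p' hp'
    rw [hS, mem_filter] at hpS
    obtain ⟨hph, hpq, hor⟩ := hpS
    have hm : p ∈ mhits c T b t n := by
      unfold mhits
      rw [mem_filter]
      refine ⟨hph, fun p' hp' hlt hdeg => ?_⟩
      have h1 : p' ∈ S := by
        rw [hS, mem_filter]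
        refine ⟨hp', by omega, Or.inr ?_⟩
        rcases hor with h | h
        · rw [← h]
          exact hdeg
        · exact deg_trans hlt.le hpq hdeg h
      have h2 := hmin p' h1
      omega
    rw [mem_biUnion]
    refine ⟨p, hm, ?_⟩
    rw [mem_insert]
    rcases hor with h | h
    · exact Or.inl h.symm
    · rcases Nat.eq_or_lt_of_le hpq with h3 | h3
      · exact Or.inl h3.symm
      · right
        rw [mem_filter, mem_Ioc]
        exact ⟨⟨h3, hqT⟩, h⟩
  refine (card_le_card hsub).trans (card_biUnion_le.trans (sum_le_sum fun p _ => ?_))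
  refine (card_insert_le _ _).trans ?_
  unfold run
  omega

lemma div_eq {b t p p1 : ℕ} (hb : 0 < b) (h1 : p1 ≤ p) (h2 : p ≤ t) (m r : ℕ) :
    (b ^ (t - p1) * m + r) / b ^ (t - p) = b ^ (p - p1) * m + r / b ^ (t - p) := by
  have e : b ^ (t - p1) = b ^ (t - p) * b ^ (p - p1) := by rw [← pow_add]; congr 1; omega
  rw [e, mul_assoc, Nat.mul_add_div (by positivity)]

lemma deg_iff {c : ℕ → ℤ} {b t p q p1 : ℕ} (hb : 0 < b) (h1 : p1 ≤ p) (h2 : p ≤ q) (h3 : q ≤ t)
    (m r : ℕ) : Deg c b t p q (b ^ (t - p1) * m + r) ↔ Deg c b t p q r := by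
  unfold Deg
  rw [div_eq hb (h1.trans h2) h3, div_eq hb h1 (h2.trans h3)]
  push_cast
  have e : (b : ℤ) ^ (q - p1) = (b : ℤ) ^ (q - p) * (b : ℤ) ^ (p - p1) := by
    rw [← pow_add]; congr 1; omega
  rw [e]
  constructor <;> intro h <;> linear_combination h

lemma run_eq {c : ℕ → ℤ} {b t p p1 : ℕ} (hb : 0 < b) (h1 : p1 ≤ p) (m r : ℕ) :
    run c b t p (b ^ (t - p1) * m + r) = run c b t p r := by
  unfold run
  congr 1
  apply Finset.filter_congr
  intro q hq
  rw [mem_Ioc] at hq
  exact deg_iff hb h1 hq.1.le hq.2 m r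

open Classical in
/-- TASK E4. -/
theorem e4 (h1 : S_TU) (h2 : S_DS) : S_E4 := by
  intro b A c hok
  obtain ⟨C, hC, P, hP⟩ := h1 b A c hok
  refine ⟨4 * C, by linarith, max P A, ?_⟩
  intro x hxx T hT z hz t ht j hj s hs0 hs1 F hFT hFne hFc
  have hx : x ≥ P := (le_max_left P A).trans hxx
  have hxA : A ≤ x := (le_max_right P A).trans hxx
  have hb := hok.hb
  have hA := hok.hA
  have hzx : z ≤ x := by nlinarith
  have hb0 : 0 < b := by omega
  have hFx : ∀ p ∈ F, x < p ∧ p ≤ 2 * x := fun p hp => hT p (hFT hp)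
  obtain ⟨p1, hp1, hmin⟩ : ∃ p1 ∈ F, ∀ p ∈ F, p1 ≤ p :=
    ⟨F.min' hFne, F.min'_mem hFne, fun p hp => F.min'_le p hp⟩
  have hpx := hFx p1 hp1
  have hFt : ∀ p ∈ F, p ≤ t := fun p hp => ((hFx p hp).2).trans ht
  have htu := hP x hx F hFx hFc p1 hp1 hmin z hz t ht
  have hds := h2 b A c hok s hs0 hs1 t F (fun p hp => ⟨by have := hFx p hp; omega, hFt p hp⟩)
    p1 hp1 hmin
  set B := b ^ (t - p1) with hB
  set W : ℕ → ℝ := fun r => ∏ p ∈ F, ((1 + s) ^ (1 + run c b t p r) - 1) with hW
  have hW0 : ∀ r, 0 ≤ W r := fun r => Finset.prod_nonneg fun p _ =>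
    sub_nonneg.mpr (one_le_pow₀ (by linarith))
  have hWe : ∀ m r, W (B * m + r) = W r := fun m r =>
    Finset.prod_congr rfl fun p hp => by rw [run_eq hb0 (hmin p hp)]
  set K : ℝ := (C * F.card * (Real.log x / x)) ^ F.card * (b : ℝ) ^ (p1 - z) with hK
  have hK0 : 0 ≤ K := by
    rw [hK]
    have : 0 ≤ Real.log x := Real.log_natCast_nonneg x
    positivity
  have e : b ^ (t - z) = b ^ (p1 - z) * B := by rw [hB, ← pow_add]; congr 1; omega
  have hcell : cell b z t j = Ico ((j * b ^ (p1 - z)) * B) (((j + 1) * b ^ (p1 - z)) * B) := by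
    unfold cell
    rw [e, mul_assoc, mul_assoc]
  have hcell2 : cell b z p1 j = Ico (j * b ^ (p1 - z)) ((j + 1) * b ^ (p1 - z)) := rfl
  rw [Finset.sum_filter, hcell, Pool.Agent.N176.GP.sum_cells _ _ _
    (Nat.mul_le_mul_right _ (Nat.le_succ j)), ← hcell2, Finset.sum_comm]
  -- the bound for one value of the last digits
  have hr : ∀ r ∈ range B, ∑ m ∈ cell b z p1 j,
      (if ¬ Big c T b t x (m * B + r) ∧ F ⊆ mhits c T b t (m * B + r) then
        ∏ p ∈ F, ((1 + s) ^ (1 + run c b t p (m * B + r)) - 1) else 0) ≤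
      if (∀ p ∈ F, ∀ q ∈ F, p < q → ¬ Deg c b t p q r) then W r * K else 0 := by
    intro r hr
    rw [mem_range] at hr
    split_ifs with hnd
    · have ht1 := htu r hr hnd j hj
      rw [← Finset.sum_boole] at ht1
      calc _ ≤ ∑ m ∈ cell b z p1 j, W r * (if (∀ p ∈ F,
              (roughPart p (sh c p ((B * m + r) / b ^ (t - p)))).Prime ∧
              ((sh c p ((B * m + r) / b ^ (t - p)) /
                roughPart p (sh c p ((B * m + r) / b ^ (t - p))) : ℕ) : ℝ) <
                Real.exp (x * Real.log b / 8)) then 1 else 0) := by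
            refine Finset.sum_le_sum fun m hm => ?_
            rw [mul_comm m B]
            split_ifs with ha hb' hb'
            · rw [mul_one]
              exact (hWe m r).le
            · exfalso
              apply hb'
              intro p hp
              have hpm := ha.2 hp
              unfold mhits hits at hpm
              simp only [mem_filter] at hpm
              refine ⟨hpm.1.2, ?_⟩
              by_contra hcon
              exact ha.1 ⟨p, hFT hp, hpm.1.2, not_lt.mp hcon⟩
            · rw [mul_one]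
              exact hW0 r
            · rw [mul_zero]
        _ ≤ W r * K := by
            rw [← Finset.mul_sum]
            exact mul_le_mul_of_nonneg_left ht1 (hW0 r)
    · apply le_of_eq
      apply Finset.sum_eq_zero
      intro m hm
      rw [mul_comm m B]
      rw [if_neg]
      rintro ⟨ha1, ha2⟩
      apply hnd
      intro p hp q hq hpq hd
      have hqm := ha2 hq
      have hpm := ha2 hp
      unfold mhits at hqm hpm
      rw [mem_filter] at hqm hpm
      refine hqm.2 p hpm.1 hpq ?_
      rw [hB]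
      exact (deg_iff hb0 (hmin p hp) hpq.le (hFt q hq) m r).mpr hd
  refine (Finset.sum_le_sum hr).trans ?_
  rw [← Finset.sum_filter, ← Finset.sum_mul]
  refine (mul_le_mul_of_nonneg_right hds hK0).trans (le_of_eq ?_)
  have e' : (b : ℝ) ^ (t - z) = (b : ℝ) ^ (p1 - z) * (b : ℝ) ^ (t - p1) := by
    rw [← pow_add]; congr 1; omega
  rw [hK, e', show 4 * C * s * F.card * (Real.log x / x) = (4 * s) * (C * F.card * (Real.log x / x)) by ring,
    mul_pow]
  ring

end Pool.Agent.N833.SH
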